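import Mathlib
import Pool.Agent.R465.Small.Grow

set_option autoImplicit false

/-!
# The `i`-th smallest prime factor of an odd perfect number: a power saving

Pomerance (1974) and Kishore (1981, `i ≤ 6`) bound the `i`-th smallest prime factor of an odd
perfect number with `k` distinct prime factors linearly in `k`. Here is a power saving in `k`
for every `i`.
-/

namespace Pool.Agent.Results.MP_f02ea4_nt.IthSmallestPrime

theorem result (m : ℕ) : ∃ C : ℝ, 0 < C ∧ ∀ N : ℕ, Odd N → N.Perfect → ∀ q ∈ N.primeFactors,
    (N.primeFactors.filter (fun p => p < q)).card = m →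
      (q : ℝ) ≤ C * (N.primeFactors.card : ℝ) ^
        (1 - 1 / (8 * ((m : ℝ) + 1)) ^ (4 ^ (m + 1))) :=
  Pool.Agent.R465.Small.small m

end Pool.Agent.Results.MP_f02ea4_nt.IthSmallestPrime
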