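import Mathlib
import Pool.Agent.R333.OP.Omega

set_option autoImplicit false

/-!
# The least prime factor `P` and the number `Ω` of the prime factors of an odd perfect number:
# `P ^ 2 / log P = o(Ω)`

Since the sum of `1 / p` over `p ∣ N` is about `log 2`, an odd perfect number `N` with least prime factor
`P` has at least `c P ^ 2 / log P` distinct prime factors (Norton).  We show that the number `Ω(N)` of its
prime factors with multiplicity is of larger order: if it were at most `K P ^ 2 / log P`, the prime
factors `≤ K P ^ 2` would carry nearly the whole sum, so that there are at least `c P ^ 2 / log P` of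
them, and by a sieve of dimension two (starting library `Pool.Agent.Y959.Sv`) all but
`O(P ^ 2 / log ^ 2 P)` of these have an exponent larger than any given number.
-/

namespace Pool.Agent.Results.MP_f02ea4_nt.LeastPrimeOmega

/-- **Main theorem.** `Ω N` is the number of the prime factors of `N` with multiplicity, `N.minFac` the
least prime factor. -/
theorem result (K : ℝ) (hK : 0 < K) : ∃ C : ℝ, ∀ N : ℕ, Odd N → Nat.Perfect N →
    K * ((N.minFac : ℝ) ^ 2 / Real.log N.minFac) ≤ (ArithmeticFunction.cardFactors N : ℝ) + C := by
  obtain ⟨C, hC⟩ := Pool.Agent.R333.OP.omega_least K hK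
  refine ⟨C, fun N hodd hperf => ?_⟩
  have h := hC N hodd hperf
  rw [ArithmeticFunction.cardFactors_eq_sum_factorization]
  exact h

end Pool.Agent.Results.MP_f02ea4_nt.LeastPrimeOmega
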