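import Mathlib
import Pool.Agent.R333.OP.Good

set_option autoImplicit false

/-!
# Most small prime factors of an odd perfect number have a large exponent

Let `N` be an odd perfect number, `v p` the exponent of `p` in `N`, and `P` its least prime factor.
Call a prime factor `p` of `N` *bad* (for a given `B`) if `v p + 1` has a prime factor `≤ B`; so every
prime factor with `v p < B` is bad.

* Up to `x` there are at most `C_B x / log ^ 2 x` bad prime factors (sieve of dimension two,
  `Pool.Agent.Y959.Sv.count_bad`).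
* The good prime factors carry the whole sum of reciprocals, up to `C_B / log P`
  (`Pool.Agent.Y959.Sv.sum_good`).
* There are at least `c_B P ^ 2 / log P` good prime factors, and the sum of their logarithms is at
  least `c_B P ^ 2`, if `P` is large (`Pool.Agent.R333.OP.many_good`).
-/

namespace Pool.Agent.Results.MP_f02ea4_nt.ManyLargeExponents

/-- **Main theorem.** -/
theorem result (B : ℕ) :
    (∃ C : ℝ, 0 < C ∧ ∀ N : ℕ, Odd N → Nat.Perfect N →
      (∀ x : ℕ, 2 ≤ x →
        (({p ∈ N.primeFactors | p ≤ x ∧ (N.factorization p + 1).minFac ≤ B}.card : ℕ) : ℝ) ≤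
          C * (x / Real.log x ^ 2)) ∧
      Real.log 2 - C / Real.log N.minFac ≤
        ∑ p ∈ N.primeFactors with B < (N.factorization p + 1).minFac, 1 / (p : ℝ)) ∧
    (∃ c : ℝ, 0 < c ∧ ∃ P₀ : ℕ, ∀ N : ℕ, Odd N → Nat.Perfect N → P₀ ≤ N.minFac →
      c * ((N.minFac : ℝ) ^ 2 / Real.log N.minFac) ≤
        (({p ∈ N.primeFactors | B < (N.factorization p + 1).minFac}.card : ℕ) : ℝ) ∧
      c * (N.minFac : ℝ) ^ 2 ≤
        ∑ p ∈ N.primeFactors with B < (N.factorization p + 1).minFac, Real.log p) := by
  refine ⟨?_, Pool.Agent.R333.OP.many_good B⟩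
  obtain ⟨C₁, hC₁, h₁⟩ := Pool.Agent.Y959.Sv.count_bad B
  obtain ⟨C₂, hC₂, h₂⟩ := Pool.Agent.Y959.Sv.sum_good B
  refine ⟨max C₁ C₂, lt_max_of_lt_left hC₁, fun N hodd hperf => ⟨fun x hx => ?_, ?_⟩⟩
  · refine (h₁ N hodd hperf x hx).trans ?_
    exact mul_le_mul_of_nonneg_right (le_max_left _ _) (by positivity)
  · refine le_trans ?_ (h₂ N hodd hperf)
    have h3 : 0 ≤ Real.log (N.minFac : ℝ) := Real.log_natCast_nonneg _
    have h4 : C₂ / Real.log N.minFac ≤ max C₁ C₂ / Real.log N.minFac :=
      div_le_div_of_nonneg_right (le_max_right _ _) h3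
    linarith

end Pool.Agent.Results.MP_f02ea4_nt.ManyLargeExponents
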