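import Mathlib
import Pool.Agent.R465.One.Final

set_option autoImplicit false

/-!
# Odd perfect numbers all of whose even exponents but one are equal to two

By Euler an odd perfect number has the form `p ^ a * q₁ ^ (2 b₁) * ... * q_k ^ (2 b_k)`. Steuerwald
(1937) excluded `b₁ = ... = b_k = 1`; for `b₂ = ... = b_k = 1` the values `b₁ = 2, 3, 5, 6` were
excluded by Brauer, Kanold, Cohen and Williams. Here all values `b₁` are excluded if `q₁ ≠ 3`; if
`q₁ = 3` all `b₁ < 579` are excluded, and all other prime factors exceed `10 ^ 4`.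
-/

namespace Pool.Agent.Results.MP_f02ea4_nt.OneLargeExponent

theorem result (N : ℕ) (hodd : Odd N) (hperf : N.Perfect) (r : ℕ)
    (hr : ∀ q ∈ N.primeFactors, q ≠ r → Even (N.factorization q) → N.factorization q = 2) :
    r = 3 ∧ 1158 ≤ N.factorization 3 ∧ ∀ q ∈ N.primeFactors, q = 3 ∨ 10000 ≤ q :=
  Pool.Agent.R465.One.main N hodd hperf r hr

end Pool.Agent.Results.MP_f02ea4_nt.OneLargeExponent
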